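import Pool.Agent.W5h14.TW.Def
import Pool.Agent.W5h83.GT.ConeDef

/-!
# Cores of flag spheres
-/

set_option autoImplicit false

namespace Pool.Agent.W5h83.CDE

open Finset Classical
open Pool.Agent.W5h83.FS Pool.Agent.W5h14.TV Pool.Agent.W5h14.TW
open Pool.Agent.W5h83.GT (AS)

/-- Cores of a flag sphere of dimension `2 m - 1` (the flag complex of the graph `G`): the sets of vertices obtained
from the set of all vertices by deleting one by one vertices `v` such that the link of `v` in the sphere is a
reducible flag sphere (class `RedT`), or the link of `v` in the full subcomplex on the remaining vertices is in the class `AS`. -/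
inductive Core {V : Type} [Fintype V] [LinearOrder V] (m : ℕ) (G : SimpleGraph V) : Finset V → Prop
  /-- the set of all vertices -/
  | all : Core m G univ
  /-- the link of `v` in the sphere is a reducible flag sphere -/
  | sph (S : Finset V) (v : V) : Core m G S → RedT true (2 * m - 1) G (nb G univ v) → Core m G (S.erase v)
  /-- the link of `v` in the full subcomplex on `S` is in the class `AS` -/
  | cls (S : Finset V) (v : V) : Core m G S → AS (2 * m - 1) (G.induce ((nb G S v : Finset V) : Set V)) →
      Core m G (S.erase v)

end Pool.Agent.W5h83.CDE
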