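import Pool.Agent.W907.SG.Stmts2

/-!
# The part of the Charney-Davis quantity above the middle
-/

set_option autoImplicit false

namespace Pool.Agent.W5h83.CDE

open Classical in
/-- The sum of `(-1/2)^|T|` over all cliques `T ⊆ U` of `G` with more than `m` elements. -/
noncomputable def lamAbove {V : Type} [Fintype V] (G : SimpleGraph V) (U : Set V) (m : ℕ) : ℚ :=
  ∑ T : Finset V, if G.IsClique (T : Set V) ∧ (T : Set V) ⊆ U ∧ m < T.card then (-1 / 2 : ℚ) ^ T.card else 0

end Pool.Agent.W5h83.CDE
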