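import Pool.Agent.R781.VS.VDel
import Pool.Agent.TH652.Dual7
import Pool.Agent.W723.SM.L2EUL

/-!
# Betti numbers of finite sets and the vertices with good links
-/

set_option autoImplicit false

namespace Pool.Agent.W5h83.CDE

open Module Pool.Agent.W907.SG Pool.Agent.W907.SM Pool.Agent.W397.SG
open Pool.Agent.W338.SG (small_restrict)
open Pool.Agent.R781.VS (vdel)

/-- finite sets with small Betti numbers for all full subcomplexes with `ℓ²`-vanishing -/
theorem famA {V : Type} [Fintype V] [LinearOrder V] (G : SimpleGraph V) (N K : ℕ) :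
    ∃ (Y : Type) (_ : Fintype Y) (_ : Nonempty Y) (P : PSet 3 G Y),
      ∀ (A : Set V) (i : ℕ), i < K → LV (G.induce A) i → N * beta G (pull ℝ P.a) A ∅ i ≤ Fintype.card Y := by
  classical
  have : Fact (Nat.Prime 3) := ⟨Nat.prime_three⟩
  have h1 : ∀ (A : Set V) (i : ℕ), ∃ Ei : Finset (W G), (1 : W G) ∉ Ei ∧ (LV (G.induce A) i →
      ∀ (X : Type) [Fintype X] (a : V → X → X) (ev : X → W G → X),
      (∀ v x, a v (a v x) = x) → (∀ u v, G.Adj u v → ∀ x, a u (a v x) = a v (a u x)) →
      (∀ x, ev x 1 = x) → (∀ x g h, ev x (g * h) = ev (ev x g) h) →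
      (∀ x v, ev x ((cox G).simple v) = a v x) →
      (∀ g ∈ Ei, ∀ x, ev x g ≠ x) → N * beta G (pull ℝ a) A ∅ i ≤ Fintype.card X) := by
    intro A i
    by_cases hi : LV (G.induce A) i
    · obtain ⟨Ei, h2, h3⟩ := small_restrict small tr G A i (hi _ _) N
      exact ⟨Ei, h2, fun _ => h3⟩
    · exact ⟨∅, Finset.notMem_empty _, fun h => absurd h hi⟩
  choose Ef hEf1 hEf2 using h1
  obtain ⟨Y, fY, neY, P, ev, e1, e2, e3, e4⟩ :=
    nilp 3 V G ((Finset.univ : Finset (Set V)).biUnion fun A => (Finset.range K).biUnion fun i => Ef A i)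
      (by norm_num) (by
      simp only [Finset.mem_biUnion]
      rintro ⟨A, _, i, _, h⟩
      exact hEf1 A i h)
  refine ⟨Y, fY, neY, P, fun A i hi hA => ?_⟩
  exact hEf2 A i hA Y P.a ev P.inv P.comm e1 e2 e3 fun g hg =>
    e4 g (Finset.mem_biUnion.2 ⟨A, Finset.mem_univ _, Finset.mem_biUnion.2 ⟨i, Finset.mem_range.2 hi, hg⟩⟩)

section
variable {V Y : Type} [Fintype V] [LinearOrder V] [Fintype Y] {G : SimpleGraph V}

theorem eigY {a : V → Y → Y} (hi : ∀ v x, a v (a v x) = x)
    (hc : ∀ u v, G.Adj u v → ∀ x, a u (a v x) = a v (a u x)) (A : Set V) (v : V) (i : ℕ) :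
    beta G (pull ℝ a) (A ∩ G.neighborSet v) (insert v ∅) i ≤ beta G (pull ℝ a) (A ∩ G.neighborSet v) ∅ i :=
  eig V ℝ (Y → ℝ) G (pull ℝ a) (A ∩ G.neighborSet v) ∅ v (by norm_num)
    (fun m => by
      funext x
      rw [pull_apply, pull_apply, hi])
    (fun u hu m => by
      have hu' : G.Adj u v := by
        rcases hu with hu | hu
        · exact ((G.mem_neighborSet v u).1 hu.2).symm
        · exact absurd hu (by simp)
      funext x
      rw [pull_apply, pull_apply, pull_apply, pull_apply, hc u v hu']) i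

/-- adding a vertex -/
theorem addY {a : V → Y → Y} (hi : ∀ v x, a v (a v x) = x)
    (hc : ∀ u v, G.Adj u v → ∀ x, a u (a v x) = a v (a u x)) {A : Set V} {v : V} (hv : v ∉ A) (i : ℕ) :
    beta G (pull ℝ a) (insert v A) ∅ (i + 1) ≤
      beta G (pull ℝ a) A ∅ (i + 1) + beta G (pull ℝ a) (A ∩ G.neighborSet v) ∅ i :=
  ((vert V ℝ (Y → ℝ) G (pull ℝ a) A ∅ v hv (by simp)).2 i).trans (Nat.add_le_add_left (eigY hi hc A v i) _)

/-- deleting a vertex -/
theorem delY {a : V → Y → Y} (hi : ∀ v x, a v (a v x) = x)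
    (hc : ∀ u v, G.Adj u v → ∀ x, a u (a v x) = a v (a u x)) {A : Set V} {v : V} (hv : v ∉ A) (i : ℕ) :
    beta G (pull ℝ a) A ∅ i ≤ beta G (pull ℝ a) (insert v A) ∅ i + beta G (pull ℝ a) (A ∩ G.neighborSet v) ∅ i :=
  (vdel G (pull ℝ a) A ∅ v hv i).trans (Nat.add_le_add_left (eigY hi hc A v i) _)

/-- the Betti numbers in high degrees come from the vertices with bad links -/
theorem reduceY {a : V → Y → Y} (hi : ∀ v x, a v (a v x) = x)
    (hc : ∀ u v, G.Adj u v → ∀ x, a u (a v x) = a v (a u x)) {U : Set V} {m N K : ℕ}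
    (hs : ∀ v ∉ U, ∀ A : Set V, A ⊆ G.neighborSet v → ∀ i, m ≤ i → i < K →
      N * beta G (pull ℝ a) A ∅ i ≤ Fintype.card Y) {i : ℕ} (hmi : m < i) (hiK : i < K) (F : Finset V) :
    (∀ v ∈ F, v ∉ U) →
    N * beta G (pull ℝ a) (U ∪ (F : Set V)) ∅ i ≤ N * beta G (pull ℝ a) U ∅ i + F.card * Fintype.card Y ∧
    N * beta G (pull ℝ a) U ∅ i ≤ N * beta G (pull ℝ a) (U ∪ (F : Set V)) ∅ i + F.card * Fintype.card Y := by
  induction F using Finset.induction_on with
  | empty =>
    intro _
    have h : U ∪ ((∅ : Finset V) : Set V) = U := by rw [Finset.coe_empty, Set.union_empty]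
    rw [h]
    simp
  | insert v F hvF ih =>
    intro hF
    obtain ⟨h1, h2⟩ := ih fun w hw => hF w (Finset.mem_insert_of_mem hw)
    have hvU : v ∉ U := hF v (Finset.mem_insert_self v F)
    have hv : v ∉ U ∪ (F : Set V) := by
      rintro (h | h)
      · exact hvU h
      · exact hvF h
    have h3 : U ∪ ((insert v F : Finset V) : Set V) = insert v (U ∪ (F : Set V)) := by
      rw [Finset.coe_insert, Set.union_insert]
    obtain ⟨j, rfl⟩ : ∃ j, i = j + 1 := ⟨i - 1, by omega⟩
    have h4 := addY hi hc hv j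
    have h5 := delY hi hc hv (j + 1)
    have h6 := hs v hvU _ (Set.inter_subset_right (s := U ∪ (F : Set V))) j (by omega) (by omega)
    have h7 := hs v hvU _ (Set.inter_subset_right (s := U ∪ (F : Set V))) (j + 1) (by omega) hiK
    rw [h3, Finset.card_insert_of_notMem hvF]
    have h8 := Nat.mul_le_mul_left N h4
    have h9 := Nat.mul_le_mul_left N h5
    rw [mul_add] at h8 h9
    constructor
    · nlinarith
    · nlinarith

end

section dim
variable {V X F : Type} [Field F]

open Classical in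
/-- the dimension of the chains of a full subcomplex -/
theorem KK_dimA [Fintype V] [Fintype X] [LinearOrder V] (G : SimpleGraph V) (a : V → X → X) (A : Set V)
    (i : ℕ) : finrank F (KK G (pull F a) A ∅ i) =
      ∑ T : Finset V, if G.IsClique (T : Set V) ∧ (T : Set V) ⊆ A ∧ T.card = i then finrank F (ET F a T) else 0 := by
  obtain ⟨p, hp⟩ : ∃ p : Finset V → Submodule F (X → F), p = fun T : Finset V =>
    if G.IsClique (T : Set V) ∧ (T : Set V) ⊆ A ∧ T.card = i then ET F a T else ⊥ := ⟨_, rfl⟩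
  have hmem : ∀ c : Finset V → (X → F), c ∈ KK G (pull F a) A ∅ i ↔ ∀ T, c T ∈ p T := by
    intro c
    rw [mem_KK]
    constructor
    · rintro ⟨h1, h2⟩ T
      rw [hp]
      simp only []
      split_ifs with h
      · intro t ht x
        have := h2 T t (Or.inl ht)
        exact congrFun this x
      · rw [Submodule.mem_bot]
        exact h1 T h
    · intro h
      refine ⟨fun T hT => ?_, fun T t ht => ?_⟩
      · have h3 := h T
        rw [hp] at h3
        simp only [] at h3
        rw [if_neg hT] at h3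
        exact h3
      · have h3 := h T
        rw [hp] at h3
        simp only [] at h3
        have ht' : t ∈ T := by
          rcases ht with ht | ht
          · exact ht
          · exact absurd ht (Set.notMem_empty t)
        split_ifs at h3 with h4
        · funext x
          exact h3 t ht' x
        · have h5 : c T = 0 := h3
          rw [h5, map_zero, neg_zero]
  have e : KK G (pull F a) A ∅ i ≃ₗ[F] (∀ T : Finset V, p T) :=
    { toFun := fun c T => ⟨c.1 T, (hmem c.1).1 c.2 T⟩
      map_add' := fun _ _ => rfl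
      map_smul' := fun _ _ => rfl
      invFun := fun g => ⟨fun T => (g T).1, (hmem _).2 fun T => (g T).2⟩
      left_inv := fun _ => rfl
      right_inv := fun _ => rfl }
  rw [e.finrank_eq, Module.finrank_pi_fintype]
  refine Finset.sum_congr rfl fun T _ => ?_
  by_cases h : G.IsClique (T : Set V) ∧ (T : Set V) ⊆ A ∧ T.card = i
  · have h1 : p T = ET F a T := by rw [hp]; exact if_pos h
    rw [h1, if_pos h]
  · have h1 : p T = ⊥ := by rw [hp]; exact if_neg h
    rw [h1, if_neg h, finrank_bot]

end dim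

end Pool.Agent.W5h83.CDE
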