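import Pool.Agent.W5h83.CDE.Main
import Pool.Agent.W5h14.TV.EvenCrit

/-!
# Good vertices and cores
-/

set_option autoImplicit false

namespace Pool.Agent.W5h83.CDE

open Finset Classical
open Pool.Agent.W5h83.FS Pool.Agent.W5h14.TV Pool.Agent.W5h14.TW

/-- sets containing all vertices which are not good are cores -/
theorem core_good {m : ℕ} {V : Type} [Fintype V] [LinearOrder V] {G : SimpleGraph V} (hm : 1 ≤ m) (U : Finset V)
    (hc : ∀ v, v ∉ U → GoodVertex (2 * m) G v) : Core m G U := by
  have hr : ∀ v, v ∉ U → RedT true (2 * m - 1) G (nb G univ v) := by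
    intro v hv
    have e1 : nb G univ v = lkF G {v} := by
      ext x
      rw [mem_lkF, mem_nb]
      simp [G.adj_comm]
    rw [e1]
    rcases hc v hv with h1 | h1
    · exact RedT.few _ _ _ _ (by omega)
    · exact redT_of_red (red_of_crit_rel h1 (2 * m - 1) {v} true (mem_singleton_self v) (by simp) (by
        rw [card_singleton]
        omega))
  have key : ∀ F : Finset V, (∀ v ∈ F, v ∉ U) → Core m G (univ \ F) := by
    intro F
    induction F using Finset.induction_on with
    | empty =>
      intro _
      rw [sdiff_empty]
      exact Core.all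
    | insert v F hvF ih =>
      intro hF
      have h1 := Core.sph _ v (ih fun w hw => hF w (mem_insert_of_mem hw))
        (hr v (hF v (mem_insert_self v F)))
      refine (congrArg (Core m G) ?_).mp h1
      ext x
      simp only [mem_erase, mem_sdiff, mem_univ, true_and, mem_insert, not_or]
  have h1 := key (univ \ U) fun v hv => (mem_sdiff.1 hv).2
  refine (congrArg (Core m G) ?_).mp h1
  ext x
  simp

end Pool.Agent.W5h83.CDE
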