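import Pool.Agent.W5h83.CDE.Fin
import Pool.Agent.W5h83.CDE.Def
import Pool.Agent.W5h83.CDE.Core
import Pool.Agent.W5h83.GT.ClassS
import Pool.Agent.W5h14.TW.Main

/-!
# The Charney-Davis inequality with a correction term
-/

set_option autoImplicit false

namespace Pool.Agent.W5h83.CDE

open Module Pool.Agent.W907.SG Pool.Agent.W907.SM Pool.Agent.W397.SG
open Pool.Agent.TH652.Above (HSph lv_set lv_univ)
open Pool.Agent.W5h83.FS Pool.Agent.W5h14.TV Pool.Agent.W5h14.TW
open Pool.Agent.W5h83.GT (AS Q_of_AS)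

/-- symmetric sums -/
theorem sum_symm {f : ℕ → ℚ} {m M : ℕ} (hM : 2 * m ≤ M) (h1 : ∀ i j, i + j = 2 * m → f i = f j)
    (h2 : ∀ i, 2 * m < i → f i = 0) :
    ∑ i ∈ Finset.range (M + 1), f i = f m + 2 * ∑ i ∈ Finset.Ico (m + 1) (M + 1), f i := by
  rw [← Finset.sum_range_add_sum_Ico f (show m + 1 ≤ M + 1 by omega), Finset.sum_range_succ]
  have h3 : ∑ i ∈ Finset.Ico (m + 1) (M + 1), f i = ∑ i ∈ Finset.range m, f i := by
    rw [← Finset.sum_Ico_consecutive f (show m + 1 ≤ 2 * m + 1 by omega) (show 2 * m + 1 ≤ M + 1 by omega),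
      Finset.sum_eq_zero (s := Finset.Ico (2 * m + 1) (M + 1)) (fun i hi => h2 i (by
        have := (Finset.mem_Ico.1 hi).1
        omega)), add_zero, Finset.sum_Ico_eq_sum_range, ← Finset.sum_range_reflect f m]
    have h4 : 2 * m + 1 - (m + 1) = m := by omega
    rw [h4]
    refine Finset.sum_congr rfl fun j hj => ?_
    have := Finset.mem_range.1 hj
    exact h1 _ _ (by omega)
  rw [h3]
  ring

section
variable {V Y : Type} [Fintype V] [LinearOrder V] [Fintype Y]

/-- the alternating sum of the dimensions above the middle -/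
theorem chi_above (G : SimpleGraph V) (a : V → Y → Y)
    (sgn : V → Y → Bool) (hinv : ∀ v x, a v (a v x) = x)
    (hcomm : ∀ u v, G.Adj u v → ∀ x, a u (a v x) = a v (a u x))
    (hs : ∀ v x, sgn v (a v x) = !(sgn v x))
    (ho : ∀ u v, u ≠ v → ∀ x, sgn u (a v x) = sgn u x) (U : Set V) (m M : ℕ) (hM : Fintype.card V ≤ M) :
    ∑ i ∈ Finset.Ico (m + 1) (M + 1), (-1 : ℚ) ^ i * (finrank ℝ (KK G (pull ℝ a) U ∅ i) : ℚ) =
      Fintype.card Y * lamAbove G U m := by
  classical
  have h1 : ∀ i ∈ Finset.Ico (m + 1) (M + 1), (-1 : ℚ) ^ i *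
      (finrank ℝ (KK G (pull ℝ a) U ∅ i) : ℚ) =
      ∑ T : Finset V, if T.card = i then (Fintype.card Y : ℚ) *
        (if G.IsClique (T : Set V) ∧ (T : Set V) ⊆ U then (-1 / 2 : ℚ) ^ T.card else 0) else 0 := by
    intro i _
    rw [KK_dimA, Nat.cast_sum, Finset.mul_sum]
    refine Finset.sum_congr rfl fun T _ => ?_
    by_cases hT : G.IsClique (T : Set V) ∧ (T : Set V) ⊆ U
    · by_cases hi : T.card = i
      · have h3 := ET_dim (F := ℝ) two_ne_zero G a sgn hinv hcomm hs ho T hT.1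
        rw [if_pos ⟨hT.1, hT.2, hi⟩, if_pos hi, if_pos hT, ← h3, ← hi]
        push_cast
        rw [div_pow]
        field_simp
      · rw [if_neg (fun h => hi h.2.2), if_neg hi]
        simp
    · rw [if_neg (fun h => hT ⟨h.1, h.2.1⟩), if_neg hT]
      simp
  rw [Finset.sum_congr rfl h1, Finset.sum_comm, lamAbove, Finset.mul_sum]
  refine Finset.sum_congr rfl fun T _ => ?_
  rw [Finset.sum_ite_eq]
  have hc := Finset.card_le_univ T
  by_cases h2 : m < T.card
  · rw [if_pos (Finset.mem_Ico.2 ⟨by omega, by omega⟩)]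
    by_cases hT : G.IsClique (T : Set V) ∧ (T : Set V) ⊆ U
    · rw [if_pos hT, if_pos ⟨hT.1, hT.2, h2⟩]
    · rw [if_neg hT, if_neg (fun h => hT ⟨h.1, h.2.1⟩)]
  · rw [if_neg (fun h => h2 (by have := (Finset.mem_Ico.1 h).1; omega)), if_neg (fun h => h2 h.2.2), mul_zero]

/-- the truncated Euler characteristic -/
theorem trunc (G : SimpleGraph V) (a : V → Y → Y) (U : Set V) (m M : ℕ) (hM : Fintype.card V ≤ M) (hm : m ≤ M) :
    ∑ i ∈ Finset.Ico (m + 1) (M + 1), (-1 : ℚ) ^ i * (beta G (pull ℝ a) U ∅ i : ℚ) =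
      ∑ i ∈ Finset.Ico (m + 1) (M + 1), (-1 : ℚ) ^ i * (finrank ℝ (KK G (pull ℝ a) U ∅ i) : ℚ) +
        (-1) ^ m * (finrank ℝ (BB G (pull ℝ a) U ∅ m) : ℚ) := by
  have e1 := congrArg (fun z : ℤ => (z : ℚ)) (euler (F := ℝ) G (pull ℝ a) U ∅ m)
  have e2 := congrArg (fun z : ℤ => (z : ℚ)) (euler (F := ℝ) G (pull ℝ a) U ∅ M)
  have hBB : finrank ℝ (BB G (pull ℝ a) U ∅ M) = 0 := by
    unfold BB
    rw [KK_big G _ U ∅ (by omega : Fintype.card V < M + 1), Submodule.map_bot, finrank_bot]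
  simp only [hBB] at e2
  push_cast at e1 e2
  rw [mul_zero, sub_zero, ← Finset.sum_range_add_sum_Ico _ (show m + 1 ≤ M + 1 by omega),
    ← Finset.sum_range_add_sum_Ico _ (show m + 1 ≤ M + 1 by omega)] at e2
  linarith

end

/-- cores, in terms of `ℓ²`-vanishing -/
inductive CoreLV {V : Type} [Fintype V] (m : ℕ) (G : SimpleGraph V) : Finset V → Prop
  | all : CoreLV m G Finset.univ
  | del (S T : Finset V) (v : V) : v ∉ T → (S : Set V) = insert v (T : Set V) → CoreLV m G S →
      (∀ i, m ≤ i → LV (G.induce ((nb G S v : Finset V) : Set V)) i) → CoreLV m G T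

/-- the Betti numbers in high degrees come from the cores -/
theorem reduceC {V Y : Type} [Fintype V] [LinearOrder V] [Fintype Y] {G : SimpleGraph V}
    {a : V → Y → Y} (hi : ∀ v x, a v (a v x) = x)
    (hc : ∀ u v, G.Adj u v → ∀ x, a u (a v x) = a v (a u x)) {m N K : ℕ}
    (hP : ∀ (A : Set V) (i : ℕ), i < K → LV (G.induce A) i → N * beta G (pull ℝ a) A ∅ i ≤ Fintype.card Y)
    {i : ℕ} (hmi : m < i) (hiK : i < K) {S : Finset V} (hS : CoreLV m G S) :
    ∃ c : ℕ, c + S.card = Fintype.card V ∧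
    N * beta G (pull ℝ a) Set.univ ∅ i ≤ N * beta G (pull ℝ a) (S : Set V) ∅ i + c * Fintype.card Y ∧
    N * beta G (pull ℝ a) (S : Set V) ∅ i ≤ N * beta G (pull ℝ a) Set.univ ∅ i + c * Fintype.card Y := by
  classical
  induction hS with
  | all =>
    refine ⟨0, by rw [zero_add, Finset.card_univ], ?_⟩
    rw [Finset.coe_univ]
    simp
  | del S T v hv hST _ hlk ih =>
    obtain ⟨c, h0, h1, h2⟩ := ih
    have hvT : v ∉ (T : Set V) := hv
    have hST' : S = insert v T := by
      apply Finset.coe_injective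
      rw [hST, Finset.coe_insert]
    obtain ⟨j, rfl⟩ : ∃ j, i = j + 1 := ⟨i - 1, by omega⟩
    have hnb : ((nb G S v : Finset V) : Set V) = (T : Set V) ∩ G.neighborSet v := by
      ext x
      rw [Finset.mem_coe, mem_nb, hST', Finset.mem_insert, Set.mem_inter_iff, Finset.mem_coe,
        SimpleGraph.mem_neighborSet]
      constructor
      · rintro ⟨h | h, h3⟩
        · exact absurd (h ▸ h3) (G.loopless.irrefl v)
        · exact ⟨h, h3⟩
      · rintro ⟨h, h3⟩
        exact ⟨Or.inr h, h3⟩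
    rw [hnb] at hlk
    have h4 := addY hi hc hvT j
    have h5 := delY hi hc hvT (j + 1)
    have h6 := hP _ j (by omega) (hlk j (by omega))
    have h7 := hP _ (j + 1) hiK (hlk (j + 1) (by omega))
    rw [hST] at h1 h2
    have h8 := Nat.mul_le_mul_left N h4
    have h9 := Nat.mul_le_mul_left N h5
    rw [mul_add] at h8 h9
    refine ⟨c + 1, ?_, ?_, ?_⟩
    · rw [hST', Finset.card_insert_of_notMem hv] at h0
      omega
    · nlinarith
    · nlinarith

/-- **The Charney-Davis inequality with a correction term.** -/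
theorem cd_corr {m : ℕ} {V : Type} [Fintype V] [LinearOrder V] {G : SimpleGraph V} (hS : HSph (2 * m) G)
    (U : Finset V) (hU : CoreLV m G U) : 0 ≤ (-1 : ℚ) ^ m * (chiW G - 2 * lamAbove G (U : Set V) m) := by
  classical
  by_contra hneg
  push Not at hneg
  obtain ⟨M, hM⟩ : ∃ M, M = Fintype.card V + 2 * m := ⟨_, rfl⟩
  obtain ⟨δ, hδ⟩ : ∃ δ : ℚ, δ = -((-1 : ℚ) ^ m * (chiW G - 2 * lamAbove G (U : Set V) m)) := ⟨_, rfl⟩
  have hδ0 : 0 < δ := by rw [hδ]; linarith
  obtain ⟨N, hN⟩ := exists_nat_gt (2 * ((M : ℚ) + 1) * Fintype.card V / δ)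
  obtain ⟨Y, fY, neY, P, hP⟩ := famA G N (M + 1)
  have hY : (0 : ℚ) < Fintype.card Y := by exact_mod_cast Fintype.card_pos
  obtain ⟨b, hb⟩ : ∃ b : ℕ → ℕ, ∀ i, b i = beta G (pull ℝ P.a) Set.univ ∅ i := ⟨_, fun _ => rfl⟩
  obtain ⟨u, hu⟩ : ∃ u : ℕ → ℕ, ∀ i, u i = beta G (pull ℝ P.a) (U : Set V) ∅ i := ⟨_, fun _ => rfl⟩
  -- the Euler characteristic
  have h1 : ∑ i ∈ Finset.range (M + 1), (-1 : ℚ) ^ i * (b i : ℚ) = Fintype.card Y * chiW G := by
    have h := Pool.Agent.W723.SM.beta_sum (two_ne_zero : (2 : ℝ) ≠ 0) G P.a P.sgn P.inv P.comm P.sgn_self P.sgn_other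
    push_cast at h
    rw [← h]
    symm
    refine Finset.sum_subset_zero_on_sdiff (Finset.range_mono (by omega)) (fun i hi => ?_) fun i _ => by rw [hb]
    have h2 := (Finset.mem_sdiff.1 hi).2
    rw [Finset.mem_range, not_lt] at h2
    rw [hb, beta_big G _ _ _ (by omega), Nat.cast_zero, mul_zero]
  -- duality
  have h2 : ∀ i j, i + j = 2 * m → (-1 : ℚ) ^ i * (b i : ℚ) = (-1 : ℚ) ^ j * (b j : ℚ) := by
    intro i j hij
    have h3 : b i = b j := by
      rw [hb, hb]
      exact Pool.Agent.TH652.Dual.duality_sgn hS P.inv P.comm P.sgn_self P.sgn_other hij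
    have h4 : (-1 : ℚ) ^ i = (-1 : ℚ) ^ j := by
      have h5 : (-1 : ℚ) ^ i * (-1 : ℚ) ^ j = 1 := by
        rw [← pow_add, hij, pow_mul]
        norm_num
      rcases neg_one_pow_eq_or ℚ i with h6 | h6 <;> rcases neg_one_pow_eq_or ℚ j with h7 | h7 <;>
        rw [h6, h7] at h5 ⊢ <;> norm_num at h5
    rw [h3, h4]
  have h3 : ∀ i, 2 * m < i → (-1 : ℚ) ^ i * (b i : ℚ) = 0 := by
    intro i hi
    have h4 : KK G (pull ℝ P.a) Set.univ ∅ i = ⊥ := by
      rw [eq_bot_iff]
      intro c hc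
      rw [Submodule.mem_bot]
      funext T
      refine (mem_KK.1 hc).1 T ?_
      rintro ⟨h5, -, h6⟩
      have := Pool.Agent.TH652.Dual.no_big hS h5
      omega
    have h5 : b i = 0 := by
      rw [hb]
      unfold beta ZZ
      rw [h4, bot_inf_eq, finrank_bot, Nat.zero_sub]
    rw [h5, Nat.cast_zero, mul_zero]
  rw [sum_symm (by omega) h2 h3] at h1
  -- the truncated Euler characteristic of the bad vertices
  have h4 := trunc G P.a (U : Set V) m M (by omega) (by omega)
  rw [chi_above G P.a P.sgn P.inv P.comm P.sgn_self P.sgn_other (U : Set V) m M (by omega)] at h4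
  -- the errors
  have h5 : ∀ i ∈ Finset.Ico (m + 1) (M + 1), N * |(-1 : ℚ) ^ i * (b i : ℚ) - (-1 : ℚ) ^ i * (u i : ℚ)| ≤
      Fintype.card V * Fintype.card Y := by
    intro i hi
    obtain ⟨hi1, hi2⟩ := Finset.mem_Ico.1 hi
    obtain ⟨c, g0, g1, g2⟩ := reduceC P.inv P.comm hP (show m < i by omega) hi2 hU
    have g4 : c ≤ Fintype.card V := by omega
    rw [← hb, ← hu] at g1 g2
    have g5 : N * b i ≤ N * u i + Fintype.card V * Fintype.card Y :=
      g1.trans (Nat.add_le_add_left (Nat.mul_le_mul_right _ g4) _)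
    have g6 : N * u i ≤ N * b i + Fintype.card V * Fintype.card Y :=
      g2.trans (Nat.add_le_add_left (Nat.mul_le_mul_right _ g4) _)
    have g7 : (N : ℚ) * b i ≤ N * u i + Fintype.card V * Fintype.card Y := by exact_mod_cast g5
    have g8 : (N : ℚ) * u i ≤ N * b i + Fintype.card V * Fintype.card Y := by exact_mod_cast g6
    rw [← mul_sub, abs_mul, abs_pow, abs_neg, abs_one, one_pow, one_mul]
    rcases abs_cases ((b i : ℚ) - u i) with ⟨g9, _⟩ | ⟨g9, _⟩
    · rw [g9]; linarith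
    · rw [g9]; linarith
  have h6 : N * |∑ i ∈ Finset.Ico (m + 1) (M + 1), (-1 : ℚ) ^ i * (b i : ℚ) -
      ∑ i ∈ Finset.Ico (m + 1) (M + 1), (-1 : ℚ) ^ i * (u i : ℚ)| ≤ ((M : ℚ) + 1) * (Fintype.card V * Fintype.card Y) := by
    rw [← Finset.sum_sub_distrib]
    refine (mul_le_mul_of_nonneg_left (Finset.abs_sum_le_sum_abs _ _) (Nat.cast_nonneg _)).trans ?_
    rw [Finset.mul_sum]
    refine (Finset.sum_le_card_nsmul _ _ _ h5).trans ?_
    rw [nsmul_eq_mul, Nat.card_Ico]
    refine mul_le_mul_of_nonneg_right ?_ (by positivity)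
    have : M + 1 - (m + 1) ≤ M + 1 := Nat.sub_le _ _
    exact_mod_cast this
  have h7 : ∑ i ∈ Finset.Ico (m + 1) (M + 1), (-1 : ℚ) ^ i * (u i : ℚ) =
      Fintype.card Y * lamAbove G (U : Set V) m + (-1) ^ m * (finrank ℝ (BB G (pull ℝ P.a) (U : Set V) ∅ m) : ℚ) := by
    rw [← h4]
    exact Finset.sum_congr rfl fun i _ => by rw [hu]
  generalize ∑ i ∈ Finset.Ico (m + 1) (M + 1), (-1 : ℚ) ^ i * (b i : ℚ) = Sb at h1 h6
  generalize ∑ i ∈ Finset.Ico (m + 1) (M + 1), (-1 : ℚ) ^ i * (u i : ℚ) = Su at h6 h7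
  have hr : (0 : ℚ) ≤ (finrank ℝ (BB G (pull ℝ P.a) (U : Set V) ∅ m) : ℚ) := Nat.cast_nonneg _
  generalize (finrank ℝ (BB G (pull ℝ P.a) (U : Set V) ∅ m) : ℚ) = r at h7 hr
  have hbm : (0 : ℚ) ≤ (b m : ℚ) := Nat.cast_nonneg _
  generalize (b m : ℚ) = bm at h1 hbm
  have hN0 : (0 : ℚ) ≤ (N : ℚ) := Nat.cast_nonneg _
  have hsq : (-1 : ℚ) ^ m * (-1 : ℚ) ^ m = 1 := by
    rw [← pow_add, ← two_mul, pow_mul]
    norm_num
  -- the conclusion
  have k1 : (Fintype.card Y : ℚ) * δ ≤ 2 * |Sb - Su| := by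
    have k2 : (Fintype.card Y : ℚ) * δ = -bm + 2 * ((-1) ^ m * (Su - Sb)) - 2 * r := by
      have k3 : (Fintype.card Y : ℚ) * δ = -((-1) ^ m * (Fintype.card Y * chiW G)) +
          2 * ((-1) ^ m * (Fintype.card Y * lamAbove G (U : Set V) m)) := by
        rw [hδ]; ring
      rw [k3, ← h1]
      have k4 : (Fintype.card Y : ℚ) * lamAbove G (U : Set V) m = Su - (-1) ^ m * r := by rw [h7]; ring
      rw [k4]
      linear_combination (-bm - 2 * r) * hsq
    have k5 : (-1 : ℚ) ^ m * (Su - Sb) ≤ |Sb - Su| := by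
      rw [abs_sub_comm]
      rcases neg_one_pow_eq_or ℚ m with h | h
      · rw [h, one_mul]; exact le_abs_self _
      · rw [h, neg_one_mul]; exact neg_le_abs _
    linarith
  have k6 : (N : ℚ) * (Fintype.card Y * δ) ≤ 2 * (((M : ℚ) + 1) * (Fintype.card V * Fintype.card Y)) := by
    have := mul_le_mul_of_nonneg_left k1 hN0
    linarith
  have k7 : (N : ℚ) * δ ≤ 2 * ((M : ℚ) + 1) * Fintype.card V := by
    refine le_of_mul_le_mul_right ?_ hY
    calc (N : ℚ) * δ * Fintype.card Y = N * (Fintype.card Y * δ) := by ring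
      _ ≤ 2 * (((M : ℚ) + 1) * (Fintype.card V * Fintype.card Y)) := k6
      _ = 2 * ((M : ℚ) + 1) * Fintype.card V * Fintype.card Y := by ring
  rw [div_lt_iff₀ hδ0] at hN
  linarith

/-- from `Core` to `CoreLV` -/
theorem Core.lv {m : ℕ} {V : Type} [Fintype V] [LinearOrder V] {G : SimpleGraph V} (hS : HSph (2 * m) G)
    {U : Finset V} (h : Core m G U) : CoreLV m G U := by
  classical
  induction h with
  | all => exact CoreLV.all
  | sph S v _ hR ih =>
    by_cases hv : v ∈ S
    · refine CoreLV.del S _ v (by simp) ?_ ih fun i hi => ?_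
      · ext x
        by_cases hx : x = v <;> simp [hx, hv]
      · have h1 : HS G (2 * m) Finset.univ := HS.of_hsph hS
        obtain ⟨k, rfl⟩ : ∃ k, m = k + 1 := by
          rcases m with _ | k
          · have h2 : (Finset.univ : Finset V) = ∅ := h1
            exact absurd (h2 ▸ Finset.mem_univ v) (Finset.notMem_empty v)
          · exact ⟨k, rfl⟩
        have h2 : HS G (2 * k + 1) (nb G Finset.univ v) := by
          have h3 : 2 * (k + 1) = (2 * k + 1) + 1 := by ring
          rw [h3] at h1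
          exact h1.2 v (Finset.mem_univ v)
        have h3 : 2 * (k + 1) - 1 = 2 * k + 1 := by omega
        rw [h3] at hR
        exact lv_redT hR h2 _ (nb_mono (Finset.subset_univ S) v) (by simp) i (by omega)
    · refine (congrArg (CoreLV m G) ?_).mpr ih
      ext x
      simp only [Finset.mem_erase]
      exact ⟨fun h => h.2, fun h => ⟨fun e => hv (e ▸ h), h⟩⟩
  | cls S v _ hA ih =>
    by_cases hv : v ∈ S
    · refine CoreLV.del S _ v (by simp) ?_ ih fun i hi => ?_
      · ext x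
        by_cases hx : x = v <;> simp [hx, hv]
      · have h1 := (Q_of_AS hA).2 Set.univ i (by
          have h1 : HS G (2 * m) Finset.univ := HS.of_hsph hS
          rcases m with _ | k
          · have h2 : (Finset.univ : Finset V) = ∅ := h1
            exact absurd (h2 ▸ Finset.mem_univ v) (Finset.notMem_empty v)
          · omega)
        exact (lv_univ _ i).1 h1
    · refine (congrArg (CoreLV m G) ?_).mpr ih
      ext x
      simp only [Finset.mem_erase]
      exact ⟨fun h => h.2, fun h => ⟨fun e => hv (e ▸ h), h⟩⟩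

/-- the criterion, for the simplices containing a vertex `v0` -/
theorem red_of_critV {V : Type} [Fintype V] [LinearOrder V] {G : SimpleGraph V} {n : ℕ} (v0 : V)
    (hc : ∀ (T : Finset V) (m : ℕ), G.IsClique (T : Set V) → v0 ∈ T → T.card + (2 * m + 5) = n →
      2 * (lkF G T).card ≤ 5 * (2 * m + 5) + 2 ∨ ∃ v ∈ lkF G T, SpansTree G (mn G (lkF G T) v)) :
    ∀ (k : ℕ) (T : Finset V) (b : Bool), G.IsClique (T : Set V) → v0 ∈ T → T.card + k = n →
      Red b k G (lkF G T) := by
  intro k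
  induction k using Nat.strong_induction_on with
  | _ k ih =>
    intro T b hT h0 hk
    have hv : ∀ (b : Bool), ∀ v ∈ lkF G T, ∀ j, k = j + 1 → Red b j G (nb G (lkF G T) v) := by
      intro b v hv j hj
      have h1 := lkF_clique hT hv
      rw [nb_lkF]
      exact ih j (by omega) _ b h1.1 (Finset.mem_insert_of_mem h0) (by omega)
    by_cases hk4 : k ≤ 4
    · exact Red.low b k G _ hk4
    rcases Nat.even_or_odd' k with ⟨m, rfl | rfl⟩
    · obtain ⟨m, rfl⟩ : ∃ m', m = m' + 1 := ⟨m - 1, by omega⟩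
      exact Red.even b m G _ fun x hx => hv true x hx _ (by ring)
    · obtain ⟨m, rfl⟩ : ∃ m', m = m' + 2 := ⟨m - 2, by omega⟩
      have hf : Red false (2 * (m + 2) + 1) G (lkF G T) := by
        rcases hc T m hT h0 (by omega) with h | ⟨v, hvT, h⟩
        · exact Red.few _ _ _ _ (by omega)
        · have h2 := Red.tree (m + 1) G _ v hvT h (by
            intro a ha b hb hab
            have h3 := lkF_clique hT (mem_mn.1 ha).1
            have h4 : b ∈ lkF G (insert a T) := by
              rw [← nb_lkF]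
              exact mem_nb.2 ⟨(mem_mn.1 hb).1, hab⟩
            have h5 := lkF_clique h3.1 h4
            rw [nb_lkF, nb_lkF]
            exact ih _ (by omega) _ false h5.1 (Finset.mem_insert_of_mem (Finset.mem_insert_of_mem h0)) (by omega))
          have h3 : 2 * (m + 1) + 3 = 2 * (m + 2) + 1 := by ring
          rwa [h3] at h2
      cases b with
      | false => exact hf
      | true => exact Red.full _ G _ hf fun x hx => hv true x hx _ (by ring)

/-- the criterion for cores -/
theorem core_of {m : ℕ} {V : Type} [Fintype V] [LinearOrder V] {G : SimpleGraph V} (hm : 1 ≤ m) (U : Finset V)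
    (hc : ∀ (T : Finset V) (j : ℕ), G.IsClique (T : Set V) → ¬ T ⊆ U → T.card + (2 * j + 5) = 2 * m →
      2 * (lkF G T).card ≤ 5 * (2 * j + 5) + 2 ∨ ∃ v ∈ lkF G T, SpansTree G (mn G (lkF G T) v)) :
    Core m G U := by
  classical
  have hr : ∀ v, v ∉ U → Red true (2 * m - 1) G (nb G Finset.univ v) := by
    intro v hv
    have h1 := red_of_critV (G := G) (n := 2 * m) v (fun T j hT h0 hj => hc T j hT (fun h => hv (h h0)) hj)
      (2 * m - 1) {v} true (by simp) (Finset.mem_singleton_self v) (by rw [Finset.card_singleton]; omega)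
    have h2 : lkF G ({v} : Finset V) = nb G Finset.univ v := by
      ext x
      rw [mem_lkF, mem_nb]
      simp [G.adj_comm]
    rwa [h2] at h1
  have key : ∀ F : Finset V, (∀ v ∈ F, v ∉ U) → Core m G (Finset.univ \ F) := by
    intro F
    induction F using Finset.induction_on with
    | empty =>
      intro _
      rw [Finset.sdiff_empty]
      exact Core.all
    | insert v F hvF ih =>
      intro hF
      have h1 := Core.sph _ v (ih fun w hw => hF w (Finset.mem_insert_of_mem hw))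
        (redT_of_red (hr v (hF v (Finset.mem_insert_self v F))))
      refine (congrArg (Core m G) ?_).mp h1
      ext x
      simp only [Finset.mem_erase, Finset.mem_sdiff, Finset.mem_univ, true_and, Finset.mem_insert, not_or]
  have h1 := key (Finset.univ \ U) fun v hv => (Finset.mem_sdiff.1 hv).2
  have h2 : Finset.univ \ (Finset.univ \ U) = U := by
    ext x
    simp
  rwa [h2] at h1

end Pool.Agent.W5h83.CDE
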